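import Pool.Agent.Helper78.BigMap.Goals

set_option autoImplicit false

/-!
Packets C3, E2 (full twists of the plane and infinite products of them).
-/

open Topology Filter Set Metric

namespace Pool.Agent.Helper87.Big

open Pool.Agent.Helper78.BigMap

/-- The profile of the twist. -/
noncomputable def ph (r r' x : ℝ) : ℝ := max 0 (min 1 ((r' - x) / (r' - r)))

/-- The `σ`-fold twist. -/
noncomputable def tws (σ : ℝ) (p : ℂ) (r r' : ℝ) (z : ℂ) : ℂ :=
  p + Complex.exp (((2 * Real.pi * σ * ph r r' ‖z - p‖ : ℝ) : ℂ) * Complex.I) * (z - p)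

theorem norm_tws (σ : ℝ) (p : ℂ) (r r' : ℝ) (z : ℂ) : ‖tws σ p r r' z - p‖ = ‖z - p‖ := by
  unfold tws
  rw [add_sub_cancel_left, norm_mul, Complex.norm_exp_ofReal_mul_I, one_mul]

theorem tws_tws (σ τ : ℝ) (p : ℂ) (r r' : ℝ) (z : ℂ) :
    tws σ p r r' (tws τ p r r' z) = tws (σ + τ) p r r' z := by
  conv_lhs => rw [tws, norm_tws]
  unfold tws
  rw [add_sub_cancel_left, ← mul_assoc, ← Complex.exp_add]
  congr 3
  push_cast
  ring

theorem tws_zero (p : ℂ) (r r' : ℝ) (z : ℂ) : tws 0 p r r' z = z := by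
  unfold tws
  simp

theorem continuous_tws (p : ℂ) (r r' : ℝ) :
    Continuous (fun q : ℝ × ℂ => tws q.1 p r r' q.2) := by
  unfold tws ph
  fun_prop

theorem tws_one (p : ℂ) (r r' : ℝ) (z : ℂ) : tws 1 p r r' z = tw p r r' z := by
  unfold tws tw ph
  congr 3
  push_cast
  ring

theorem tws_inj (σ : ℝ) (p : ℂ) (r r' : ℝ) : Function.Injective (tws σ p r r') := by
  intro z w h
  have h2 := congrArg (tws (-σ) p r r') h
  rwa [tws_tws, tws_tws, neg_add_cancel, tws_zero, tws_zero] at h2

theorem tws_one_eq (p : ℂ) (r r' : ℝ) (hr : r < r') (z : ℂ)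
    (hz : ‖z - p‖ ≤ r ∨ r' ≤ ‖z - p‖) : tws 1 p r r' z = z := by
  have hpos : 0 < r' - r := sub_pos.2 hr
  rcases hz with hz | hz
  · have h1 : ph r r' ‖z - p‖ = 1 := by
      unfold ph
      have : 1 ≤ (r' - ‖z - p‖) / (r' - r) := by
        rw [one_le_div hpos]
        linarith
      rw [min_eq_left this]
      exact max_eq_right zero_le_one
    unfold tws
    rw [h1]
    have : ((2 * Real.pi * 1 * 1 : ℝ) : ℂ) * Complex.I = 2 * Real.pi * Complex.I := by
      push_cast
      ring
    rw [this, Complex.exp_two_pi_mul_I]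
    ring
  · have h1 : ph r r' ‖z - p‖ = 0 := by
      unfold ph
      have : (r' - ‖z - p‖) / (r' - r) ≤ 0 := by
        apply div_nonpos_of_nonpos_of_nonneg _ hpos.le
        linarith
      rw [min_eq_right (this.trans zero_le_one)]
      exact max_eq_left this
    unfold tws
    rw [h1]
    simp

/-- The twist as a homeomorphism. -/
noncomputable def twH (p : ℂ) (r r' : ℝ) : ℂ ≃ₜ ℂ where
  toFun := tws 1 p r r'
  invFun := tws (-1) p r r'
  left_inv z := by rw [tws_tws]; simp [tws_zero]
  right_inv z := by rw [tws_tws]; simp [tws_zero]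
  continuous_toFun := (continuous_tws p r r').comp (Continuous.prodMk_right (1 : ℝ))
  continuous_invFun := (continuous_tws p r r').comp (Continuous.prodMk_right (-1 : ℝ))

theorem goalC3 (h : GoalC2) : GoalC3 := by
  intro p r r' hr hrr
  refine ⟨twH p r r', fun z => tws_one p r r' z, fun z hz => tws_one_eq p r r' hrr z hz,
    fun z => norm_tws 1 p r r' z, fun z => ?_⟩
  exact h (fun s z => tws s p r r' z) (continuous_tws p r r') (fun s => tws_inj s p r r')
    (fun z => tws_zero p r r' z) 1 z

theorem posAt_id (h : GoalC2) (z : ℂ) : PosAt (fun w => w) z :=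
  h (fun _ w => w) continuous_snd (fun _ => Function.injective_id) (fun _ => rfl) 0 z

theorem posAt_congr {F G : ℂ → ℂ} {z : ℂ} (hF : PosAt F z) (h : ∀ᶠ w in 𝓝 z, G w = F w) :
    PosAt G z := by
  obtain ⟨ε, hε, hb⟩ := Metric.eventually_nhds_iff.1 h
  have h1 : ∀ᶠ r : ℝ in 𝓝[>] 0, 0 < r ∧ r < ε := by
    have := Ioo_mem_nhdsGT hε
    exact this
  unfold PosAt at hF ⊢
  filter_upwards [hF, h1] with r hr hr2
  obtain ⟨u, hu1, hu2, hu3⟩ := hr
  refine ⟨u, hu1, fun t => ?_, hu3⟩
  have e1 : G z = F z := hb (by simpa using hε)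
  have e2 : G (z + r * Complex.exp (t * Complex.I)) = F (z + r * Complex.exp (t * Complex.I)) := by
    apply hb
    rw [dist_eq_norm, add_sub_cancel_left, norm_mul, Complex.norm_exp_ofReal_mul_I, mul_one,
      Complex.norm_real, Real.norm_of_nonneg hr2.1.le]
    exact hr2.2
  rw [e1, e2]
  exact hu2 t

section glue

variable (A : ℕ → Set ℂ) (g : ℕ → ℂ ≃ₜ ℂ)

open Classical in
/-- Glueing of the homeomorphisms `g i` supported in the disjoint sets `A i`. -/
noncomputable def glue (z : ℂ) : ℂ := if h : ∃ i, z ∈ A i then g h.choose z else z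

variable {A g}

theorem glue_of_not (z : ℂ) (hz : ∀ i, z ∉ A i) : glue A g z = z := by
  unfold glue
  rw [dif_neg]
  push Not
  exact hz

theorem glue_of_mem (hd : ∀ i k z, z ∈ A i → z ∈ A k → i = k) (z : ℂ) (i : ℕ) (hz : z ∈ A i) :
    glue A g z = g i z := by
  unfold glue
  have h : ∃ i, z ∈ A i := ⟨i, hz⟩
  rw [dif_pos h]
  rw [hd _ _ z h.choose_spec hz]

theorem mem_of_mem (hg : ∀ i z, z ∉ A i → g i z = z) (i : ℕ) (z : ℂ) (hz : z ∈ A i) :
    g i z ∈ A i := by
  by_contra h
  have h1 := hg i _ h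
  have h2 := (g i).injective h1
  rw [h2] at h
  exact h hz

theorem symm_of_not (hg : ∀ i z, z ∉ A i → g i z = z) (i : ℕ) (z : ℂ) (hz : z ∉ A i) :
    (g i).symm z = z := by
  rw [Homeomorph.symm_apply_eq]
  exact (hg i z hz).symm

theorem glue_symm_glue (hd : ∀ i k z, z ∈ A i → z ∈ A k → i = k)
    (hg : ∀ i z, z ∉ A i → g i z = z) (z : ℂ) :
    glue A (fun i => (g i).symm) (glue A g z) = z := by
  by_cases h : ∃ i, z ∈ A i
  · obtain ⟨i, hi⟩ := h
    rw [glue_of_mem hd z i hi, glue_of_mem hd _ i (mem_of_mem hg i z hi)]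
    simp
  · push Not at h
    rw [glue_of_not z h, glue_of_not z h]

variable {e : ℂ} {R : ℕ → ℝ}

/-- Local description of the glued map away from `e`. -/
theorem glue_local (hR : StrictAnti R) (hR0 : Tendsto R atTop (𝓝 0))
    (hA : ∀ i, IsClosed (A i))
    (hs : ∀ i z, z ∈ A i → R (i + 1) < ‖z - e‖ ∧ ‖z - e‖ < R i)
    (hd : ∀ i k z, z ∈ A i → z ∈ A k → i = k)
    (hg : ∀ i z, z ∉ A i → g i z = z) (z : ℂ) (hz : z ≠ e) :
    (∃ i, ∀ᶠ w in 𝓝 z, glue A g w = g i w) ∨ (∀ᶠ w in 𝓝 z, glue A g w = w) := by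
  have hcn : Continuous (fun w : ℂ => ‖w - e‖) := by fun_prop
  by_cases h : ∃ i, z ∈ A i
  · obtain ⟨i, hi⟩ := h
    left
    refine ⟨i, ?_⟩
    have h1 : ∀ᶠ w in 𝓝 z, R (i + 1) < ‖w - e‖ :=
      (hcn.tendsto z).eventually (lt_mem_nhds (hs i z hi).1)
    have h2 : ∀ᶠ w in 𝓝 z, ‖w - e‖ < R i :=
      (hcn.tendsto z).eventually (gt_mem_nhds (hs i z hi).2)
    filter_upwards [h1, h2] with w hw1 hw2
    by_cases hk : ∃ k, w ∈ A k
    · obtain ⟨k, hk⟩ := hk
      have hik : k = i := by
        by_contra hne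
        rcases lt_or_gt_of_ne hne with hlt | hgt
        · have := hR.antitone (Nat.succ_le_of_lt hlt)
          have h3 := (hs k w hk).1
          simp only [Nat.succ_eq_add_one] at this
          linarith
        · have := hR.antitone (Nat.succ_le_of_lt hgt)
          have h3 := (hs k w hk).2
          simp only [Nat.succ_eq_add_one] at this
          linarith
      rw [hik] at hk
      exact glue_of_mem hd w i hk
    · push Not at hk
      rw [glue_of_not w hk, hg i w (hk i)]
  · right
    push Not at h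
    have hpos : 0 < ‖z - e‖ := norm_pos_iff.2 (sub_ne_zero.2 hz)
    obtain ⟨n, hn⟩ := (hR0.eventually (gt_mem_nhds hpos)).exists
    have h1 : ∀ᶠ w in 𝓝 z, R n < ‖w - e‖ :=
      (hcn.tendsto z).eventually (lt_mem_nhds hn)
    have h2 : ∀ᶠ w in 𝓝 z, ∀ k ∈ Finset.range n, w ∉ A k := by
      rw [Filter.eventually_all_finset]
      intro k _
      exact (hA k).isOpen_compl.mem_nhds (h k)
    filter_upwards [h1, h2] with w hw1 hw2
    apply glue_of_not
    intro k hk
    rcases lt_or_ge k n with hkn | hkn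
    · exact hw2 k (Finset.mem_range.2 hkn) hk
    · have h3 := (hs k w hk).2
      have h4 := hR.antitone hkn
      linarith

theorem glue_ball (hR : StrictAnti R)
    (hs : ∀ i z, z ∈ A i → R (i + 1) < ‖z - e‖ ∧ ‖z - e‖ < R i)
    (hd : ∀ i k z, z ∈ A i → z ∈ A k → i = k)
    (hg : ∀ i z, z ∉ A i → g i z = z) (i : ℕ) (z : ℂ) (hz : z ∈ closedBall e (R i)) :
    glue A g z ∈ closedBall e (R i) := by
  by_cases h : ∃ k, z ∈ A k
  · obtain ⟨k, hk⟩ := h
    rw [glue_of_mem hd z k hk]
    have h1 := mem_of_mem hg k z hk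
    have h2 := hs k _ h1
    have h3 := hs k _ hk
    rw [mem_closedBall, dist_eq_norm] at hz ⊢
    have hik : i ≤ k := by
      by_contra hlt
      push Not at hlt
      have := hR.antitone (Nat.succ_le_of_lt hlt)
      simp only [Nat.succ_eq_add_one] at this
      linarith
    have := hR.antitone hik
    linarith
  · push Not at h
    rwa [glue_of_not z h]

theorem glue_continuous (hRp : ∀ i, 0 < R i) (hR : StrictAnti R) (hR0 : Tendsto R atTop (𝓝 0))
    (hA : ∀ i, IsClosed (A i))
    (hs : ∀ i z, z ∈ A i → R (i + 1) < ‖z - e‖ ∧ ‖z - e‖ < R i)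
    (hd : ∀ i k z, z ∈ A i → z ∈ A k → i = k)
    (hg : ∀ i z, z ∉ A i → g i z = z) : Continuous (glue A g) := by
  rw [continuous_iff_continuousAt]
  intro z
  by_cases hz : z = e
  · subst hz
    have he : glue A g z = z := by
      apply glue_of_not
      intro i hi
      have := (hs i z hi).1
      rw [sub_self, norm_zero] at this
      linarith [hRp (i + 1)]
    unfold ContinuousAt
    rw [he, Metric.tendsto_nhds]
    intro ε hε
    obtain ⟨n, hn⟩ := (hR0.eventually (gt_mem_nhds hε)).exists
    have h1 : closedBall z (R n) ∈ 𝓝 z := closedBall_mem_nhds z (hRp n)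
    filter_upwards [h1] with w hw
    have := glue_ball hR hs hd hg n w hw
    rw [mem_closedBall] at this
    linarith
  · rcases glue_local hR hR0 hA hs hd hg z hz with ⟨i, hi⟩ | hi
    · exact ((g i).continuous.continuousAt (x := z)).congr (hi.mono fun w hw => hw.symm)
    · exact (continuousAt_id (x := z)).congr (hi.mono fun w hw => hw.symm)

end glue

theorem goalE2 (h : GoalC2) : GoalE2 := by
  intro e R r r' p hRp hR hR0 hr hs'
  set A : ℕ → Set ℂ := fun i => {z | r i ≤ ‖z - p i‖ ∧ ‖z - p i‖ ≤ r' i} with hAdef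
  set g : ℕ → ℂ ≃ₜ ℂ := fun i => twH (p i) (r i) (r' i) with hgdef
  have hA : ∀ i, IsClosed (A i) := by
    intro i
    have hc : Continuous (fun z : ℂ => ‖z - p i‖) := by fun_prop
    exact (isClosed_le continuous_const hc).inter (isClosed_le hc continuous_const)
  have hs : ∀ i z, z ∈ A i → R (i + 1) < ‖z - e‖ ∧ ‖z - e‖ < R i :=
    fun i z hz => hs' i z hz.1 hz.2
  have hd : ∀ i k z, z ∈ A i → z ∈ A k → i = k := by
    intro i k z hi hk
    have h1 := hs i z hi
    have h2 := hs k z hk
    by_contra hne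
    rcases lt_or_gt_of_ne hne with hlt | hgt
    · have := hR.antitone (Nat.succ_le_of_lt hlt)
      simp only [Nat.succ_eq_add_one] at this
      linarith
    · have := hR.antitone (Nat.succ_le_of_lt hgt)
      simp only [Nat.succ_eq_add_one] at this
      linarith
  have hg : ∀ i z, z ∉ A i → g i z = z := by
    intro i z hz
    apply tws_one_eq _ _ _ (hr i).2
    by_contra hcon
    push Not at hcon
    exact hz ⟨hcon.1.le, hcon.2.le⟩
  have hg' : ∀ i z, z ∉ A i → (g i).symm z = z := symm_of_not hg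
  have hinv : ∀ z, glue A g (glue A (fun i => (g i).symm) z) = z := by
    intro z
    have := glue_symm_glue (A := A) (g := fun i => (g i).symm) hd hg' z
    simpa using this
  let T : ℂ ≃ₜ ℂ :=
    { toFun := glue A g
      invFun := glue A (fun i => (g i).symm)
      left_inv := glue_symm_glue hd hg
      right_inv := hinv
      continuous_toFun := glue_continuous hRp hR hR0 hA hs hd hg
      continuous_invFun := glue_continuous hRp hR hR0 hA hs hd hg' }
  have hT : ∀ z, T z = glue A g z := fun z => rfl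
  have hgt : ∀ i z, g i z = tw (p i) (r i) (r' i) z := fun i z => tws_one _ _ _ z
  refine ⟨T, ?_, ?_, ?_, ?_, ?_, ?_⟩
  · intro i z h1 h2
    rw [hT, ← hgt]
    by_cases hk : ∃ k, z ∈ A k
    · obtain ⟨k, hk⟩ := hk
      have h3 := hs k z hk
      have hik : k = i := by
        by_contra hne
        rcases lt_or_gt_of_ne hne with hlt | hgt
        · have := hR.antitone (Nat.succ_le_of_lt hlt)
          simp only [Nat.succ_eq_add_one] at this
          linarith
        · have := hR.antitone (Nat.succ_le_of_lt hgt)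
          simp only [Nat.succ_eq_add_one] at this
          linarith
      rw [hik] at hk
      exact glue_of_mem hd z i hk
    · push Not at hk
      rw [glue_of_not z hk, hg i z (hk i)]
  · intro z h1
    rw [hT]
    apply glue_of_not
    intro k hk
    have h3 := (hs k z hk).2
    have h4 := hR.antitone (Nat.zero_le k)
    linarith
  · rw [hT]
    apply glue_of_not
    intro i hi
    have := (hs i e hi).1
    rw [sub_self, norm_zero] at this
    linarith [hRp (i + 1)]
  · intro i z hz
    rw [hT]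
    exact glue_ball hR hs hd hg i z hz
  · intro z hz
    rw [hT] at hz
    by_cases hk : ∃ k, z ∈ A k
    · obtain ⟨k, hk⟩ := hk
      refine ⟨k, ?_⟩
      rw [glue_of_mem hd z k hk] at hz
      by_contra hcon
      apply hz
      apply tws_one_eq _ _ _ (hr k).2
      by_contra hc2
      push Not at hc2
      exact hcon hc2
    · push Not at hk
      exact absurd (glue_of_not z hk) hz
  · intro z hz
    rcases glue_local hR hR0 hA hs hd hg z hz with ⟨i, hi⟩ | hi
    · obtain ⟨T', hT1, -, -, hT4⟩ := goalC3 h (p i) (r i) (r' i) (hr i).1 (hr i).2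
      refine posAt_congr (hT4 z) ?_
      filter_upwards [hi] with w hw
      rw [hT, hw, hT1]
      exact hgt i w
    · refine posAt_congr (posAt_id h z) ?_
      filter_upwards [hi] with w hw
      rw [hT, hw]

end Pool.Agent.Helper87.Big
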