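import Pool.Agent.Helper78.BigMap.Goals

set_option autoImplicit false

/-!
Packet E1 (choice of clusters).
-/

open Topology Filter Set Metric

namespace Pool.Agent.Helper87.Big

open Pool.Agent.Helper78.BigMap

theorem gap {E : Set ℝ} (hc : IsClosed E) (ht : IsTotallyDisconnected E) (u v : ℝ) (h : u < v) :
    ∃ u' v', u < u' ∧ u' < v' ∧ v' < v ∧ ∀ x ∈ Icc u' v', x ∉ E := by
  have h1 : ∃ x ∈ Ioo u v, x ∉ E := by
    by_contra hcon
    push Not at hcon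
    have h2 := ht (Ioo u v) (fun x hx => hcon x hx) isPreconnected_Ioo
    have h3 : (u + (v - u) / 3) ∈ Ioo u v := ⟨by linarith, by linarith⟩
    have h4 : (u + (v - u) / 2) ∈ Ioo u v := ⟨by linarith, by linarith⟩
    have := h2 h3 h4
    linarith
  obtain ⟨x, hx, hxE⟩ := h1
  have h2 : Ioo u v ∩ Eᶜ ∈ 𝓝 x :=
    (isOpen_Ioo.inter hc.isOpen_compl).mem_nhds ⟨hx, hxE⟩
  obtain ⟨ε, hε, hb⟩ := Metric.mem_nhds_iff.1 h2
  have hm : ∀ y, |y - x| < ε → y ∈ Ioo u v ∧ y ∉ E := fun y hy =>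
    hb (by rw [mem_ball, Real.dist_eq]; exact hy)
  refine ⟨x - ε / 2, x + ε / 2, ?_, by linarith, ?_, ?_⟩
  · exact (hm (x - ε / 2) (by rw [abs_lt]; constructor <;> linarith)).1.1
  · exact (hm (x + ε / 2) (by rw [abs_lt]; constructor <;> linarith)).1.2
  · intro y hy
    exact (hm y (by rw [abs_lt]; constructor <;> linarith [hy.1, hy.2])).2

theorem gap2 {E : Set ℝ} (hc : IsClosed E) (ht : IsTotallyDisconnected E) (a u v : ℝ)
    (h : u < v) :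
    ∃ r r', u < r ∧ r < r' ∧ r' < v ∧ ∀ ρ ∈ Icc r r', a + ρ ∉ E ∧ a - ρ ∉ E := by
  obtain ⟨u1, v1, h1, h2, h3, h4⟩ := gap hc ht (a + u) (a + v) (by linarith)
  obtain ⟨u2, v2, k1, k2, k3, k4⟩ := gap hc ht (2 * a - v1) (2 * a - u1) (by linarith)
  refine ⟨a - v2, a - u2, by linarith, by linarith, by linarith, fun ρ hρ => ⟨?_, ?_⟩⟩
  · exact h4 _ ⟨by linarith [hρ.1, hρ.2], by linarith [hρ.1, hρ.2]⟩
  · exact k4 _ ⟨by linarith [hρ.1, hρ.2], by linarith [hρ.1, hρ.2]⟩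

/-- The closed annulus misses `E`, and stays away from `e ∈ E`. -/
theorem ann {E : Set ℝ} (e a r r' : ℝ) (he : e ∈ E)
    (h : ∀ ρ ∈ Icc r r', a + ρ ∉ E ∧ a - ρ ∉ E) :
    (∀ z : ℂ, r ≤ ‖z - a‖ → ‖z - a‖ ≤ r' → z ∉ inC E) ∧
      ∃ d > 0, ∀ z : ℂ, r ≤ ‖z - a‖ → ‖z - a‖ ≤ r' → d ≤ ‖z - e‖ := by
  have key : ∀ x ∈ E, ¬ (r ≤ |x - a| ∧ |x - a| ≤ r') := by
    intro x hx hcon
    rcases abs_cases (x - a) with hh | hh
    · exact (h |x - a| hcon).1 (by rw [hh.1]; simpa using hx)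
    · exact (h |x - a| hcon).2 (by rw [hh.1]; simpa using hx)
  constructor
  · rintro z h1 h2 ⟨x, hx, rfl⟩
    apply key x hx
    have : ((x : ℂ) - (a : ℂ)) = ((x - a : ℝ) : ℂ) := by push_cast; ring
    rw [this, Complex.norm_real, Real.norm_eq_abs] at h1 h2
    exact ⟨h1, h2⟩
  · have he2 := key e he
    have hea : ‖((e : ℂ) - (a : ℂ))‖ = |e - a| := by
      have : ((e : ℂ) - (a : ℂ)) = ((e - a : ℝ) : ℂ) := by push_cast; ring
      rw [this, Complex.norm_real, Real.norm_eq_abs]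
    by_cases hlt : |e - a| < r
    · refine ⟨r - |e - a|, by linarith, fun z h1 h2 => ?_⟩
      have h3 : ‖z - a‖ ≤ ‖z - e‖ + ‖(e : ℂ) - a‖ := by
        have := norm_add_le (z - e) ((e : ℂ) - a)
        rwa [sub_add_sub_cancel] at this
      rw [hea] at h3
      linarith
    · have hgt : r' < |e - a| := by
        by_contra hcon
        exact he2 ⟨not_lt.1 hlt, not_lt.1 hcon⟩
      refine ⟨|e - a| - r', by linarith, fun z h1 h2 => ?_⟩
      have h3 : ‖(e : ℂ) - a‖ ≤ ‖z - e‖ + ‖z - a‖ := by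
        have := norm_add_le ((e : ℂ) - z) (z - a)
        rw [sub_add_sub_cancel, norm_sub_rev (e : ℂ) z] at this
        exact this
      rw [hea] at h3
      linarith

/-- Three points of `E` near the accumulation point. -/
theorem three {E : Set ℝ} (e : ℝ) (h : ∀ η > 0, ∃ x ∈ E, x ≠ e ∧ |x - e| < η) (η : ℝ)
    (hη : 0 < η) :
    ∃ a c b : ℝ, a ∈ E ∧ c ∈ E ∧ b ∈ E ∧ a < c ∧ c < b ∧
      (0 < |a - e| ∧ |a - e| < η) ∧ (0 < |c - e| ∧ |c - e| < η) ∧ (0 < |b - e| ∧ |b - e| < η) := by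
  obtain ⟨x, hx, hxe, hxd⟩ := h η hη
  have hx0 : 0 < |x - e| := abs_pos.2 (sub_ne_zero.2 hxe)
  obtain ⟨y, hy, hye, hyd⟩ := h |x - e| hx0
  have hy0 : 0 < |y - e| := abs_pos.2 (sub_ne_zero.2 hye)
  obtain ⟨z, hz, hze, hzd⟩ := h |y - e| hy0
  have hz0 : 0 < |z - e| := abs_pos.2 (sub_ne_zero.2 hze)
  have hxy : x ≠ y := by rintro rfl; exact lt_irrefl _ hyd
  have hyz : y ≠ z := by rintro rfl; exact lt_irrefl _ hzd
  have hxz : x ≠ z := by rintro rfl; exact lt_irrefl _ (hzd.trans hyd)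
  have bx : 0 < |x - e| ∧ |x - e| < η := ⟨hx0, hxd⟩
  have by' : 0 < |y - e| ∧ |y - e| < η := ⟨hy0, hyd.trans hxd⟩
  have bz : 0 < |z - e| ∧ |z - e| < η := ⟨hz0, (hzd.trans hyd).trans hxd⟩
  rcases lt_or_gt_of_ne hxy with h1 | h1 <;> rcases lt_or_gt_of_ne hyz with h2 | h2 <;>
    rcases lt_or_gt_of_ne hxz with h3 | h3
  · exact ⟨x, y, z, hx, hy, hz, h1, h2, bx, by', bz⟩
  · linarith
  · exact ⟨x, z, y, hx, hz, hy, h3, h2, bx, bz, by'⟩
  · exact ⟨z, x, y, hz, hx, hy, h3, h1, bz, bx, by'⟩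
  · exact ⟨y, x, z, hy, hx, hz, h1, h3, by', bx, bz⟩
  · exact ⟨y, z, x, hy, hz, hx, h2, h3, by', bz, bx⟩
  · linarith
  · exact ⟨z, y, x, hz, hy, hx, h2, h1, bz, by', bx⟩

/-- One step of the construction. -/
def Step (E : Set ℝ) (e R R' a b c r r' s s' : ℝ) : Prop :=
  a ∈ E ∧ b ∈ E ∧ c ∈ E ∧ (a < c ∧ c < b) ∧
    (R' < |a - e| ∧ |a - e| < R) ∧ (R' < |b - e| ∧ |b - e| < R) ∧
    (R' < |c - e| ∧ |c - e| < R) ∧
    (c - a < r ∧ r < r' ∧ r' < b - a) ∧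
    (b - c < s ∧ s < s' ∧ s' < b - a) ∧
    (∀ z : ℂ, r ≤ ‖z - a‖ → ‖z - a‖ ≤ r' →
      z ∉ inC E ∧ R' < ‖z - e‖ ∧ ‖z - e‖ < R) ∧
    (∀ z : ℂ, s ≤ ‖z - b‖ → ‖z - b‖ ≤ s' →
      z ∉ inC E ∧ R' < ‖z - e‖ ∧ ‖z - e‖ < R)

theorem step {E : Set ℝ} (hcl : IsClosed E) (ht : IsTotallyDisconnected E) (e : ℝ) (he : e ∈ E)
    (h : ∀ η > 0, ∃ x ∈ E, x ≠ e ∧ |x - e| < η) (R : {x : ℝ // 0 < x}) :
    ∃ (R' : {x : ℝ // 0 < x}) (a b c r r' s s' : ℝ), (R' : ℝ) ≤ R / 2 ∧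
      Step E e R R' a b c r r' s s' := by
  have hR := R.2
  obtain ⟨a, c, b, ha, hc, hb, hac, hcb, ⟨a1, a2⟩, ⟨c1, c2⟩, ⟨b1, b2⟩⟩ :=
    three e h ((R : ℝ) / 4) (by linarith)
  obtain ⟨r, r', r1, r2, r3, r4⟩ := gap2 hcl ht a (c - a) (b - a) (by linarith)
  obtain ⟨s, s', s1, s2, s3, s4⟩ := gap2 hcl ht b (b - c) (b - a) (by linarith)
  obtain ⟨p1, d, hd, p2⟩ := ann e a r r' he r4
  obtain ⟨q1, d', hd', q2⟩ := ann e b s s' he s4
  have hba : b - a < (R : ℝ) / 2 := by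
    have := abs_lt.1 a2
    have := abs_lt.1 b2
    linarith
  have hnorm : ∀ x : ℝ, ‖((x : ℂ) - (e : ℂ))‖ = |x - e| := by
    intro x
    have : ((x : ℂ) - (e : ℂ)) = ((x - e : ℝ) : ℂ) := by push_cast; ring
    rw [this, Complex.norm_real, Real.norm_eq_abs]
  have hup : ∀ (x : ℝ) (z : ℂ), ‖z - e‖ ≤ ‖z - x‖ + |x - e| := by
    intro x z
    have := norm_add_le (z - x) ((x : ℂ) - e)
    rwa [sub_add_sub_cancel, hnorm] at this
  set m : ℝ := min (min (min (R : ℝ) |a - e|) (min |b - e| |c - e|)) (min d d') with hm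
  have hm0 : 0 < m := by
    rw [hm]
    exact lt_min (lt_min (lt_min hR a1) (lt_min b1 c1)) (lt_min hd hd')
  have m1 : m ≤ R := (min_le_left _ _).trans ((min_le_left _ _).trans (min_le_left _ _))
  have m2 : m ≤ |a - e| := (min_le_left _ _).trans ((min_le_left _ _).trans (min_le_right _ _))
  have m3 : m ≤ |b - e| := (min_le_left _ _).trans ((min_le_right _ _).trans (min_le_left _ _))
  have m4 : m ≤ |c - e| := (min_le_left _ _).trans ((min_le_right _ _).trans (min_le_right _ _))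
  have m5 : m ≤ d := (min_le_right _ _).trans (min_le_left _ _)
  have m6 : m ≤ d' := (min_le_right _ _).trans (min_le_right _ _)
  refine ⟨⟨m / 2, by linarith⟩, a, b, c, r, r', s, s', ?_, ha, hb, hc, ⟨hac, hcb⟩, ?_, ?_, ?_,
    ⟨r1, r2, r3⟩, ⟨s1, s2, s3⟩, ?_, ?_⟩
  · show m / 2 ≤ (R : ℝ) / 2
    linarith
  · show m / 2 < |a - e| ∧ |a - e| < R
    constructor <;> linarith
  · show m / 2 < |b - e| ∧ |b - e| < R
    constructor <;> linarith
  · show m / 2 < |c - e| ∧ |c - e| < R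
    constructor <;> linarith
  · intro z h1 h2
    have h3 := p2 z h1 h2
    have h4 := hup a z
    refine ⟨p1 z h1 h2, ?_, ?_⟩
    · show m / 2 < ‖z - e‖
      linarith
    · linarith
  · intro z h1 h2
    have h3 := q2 z h1 h2
    have h4 := hup b z
    refine ⟨q1 z h1 h2, ?_, ?_⟩
    · show m / 2 < ‖z - e‖
      linarith
    · linarith

theorem goalE1 : GoalE1 := by
  intro E hcomp ht hinf hsub
  obtain ⟨e, he, hacc⟩ := hinf.exists_accPt_of_subset_isCompact hcomp (Subset.refl E)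
  have h : ∀ η > 0, ∃ x ∈ E, x ≠ e ∧ |x - e| < η := by
    intro η hη
    rw [accPt_iff_frequently] at hacc
    have h1 : ∀ᶠ x in 𝓝 e, |x - e| < η := by
      have := Metric.ball_mem_nhds e hη
      filter_upwards [this] with x hx
      rwa [mem_ball, Real.dist_eq] at hx
    obtain ⟨x, ⟨hx1, hx2⟩, hx3⟩ := (hacc.and_eventually h1).exists
    exact ⟨x, hx2, hx1, hx3⟩
  have hE1 := hsub he
  have habs : |e| < 1 := abs_lt.2 hE1
  choose nx a b c r r' s s' hle hst using step hcomp.isClosed ht e he h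
  let R0 : {x : ℝ // 0 < x} := ⟨(1 - |e|) / 2, by linarith⟩
  let Q : ℕ → {x : ℝ // 0 < x} := fun n => Nat.rec R0 (fun _ q => nx q) n
  have hQ : ∀ n, Q (n + 1) = nx (Q n) := fun n => rfl
  have hhalf : ∀ n : ℕ, ((Q (n + 1)).1 : ℝ) ≤ ((Q n).1 : ℝ) / 2 := by
    intro n
    rw [hQ]
    exact hle (Q n)
  have hgeo : ∀ n : ℕ, ((Q n).1 : ℝ) ≤ (R0.1 : ℝ) * (1 / 2) ^ n := by
    intro n
    induction n with
    | zero => simp [Q]
    | succ n ih =>
      rw [pow_succ]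
      have := hhalf n
      linarith
  refine ⟨e, he, fun n => ((Q n).1 : ℝ), fun n => a (Q n), fun n => b (Q n), fun n => c (Q n),
    fun n => r (Q n), fun n => r' (Q n), fun n => s (Q n), fun n => s' (Q n), fun n => (Q n).2,
    ?_, ?_, ?_, ?_⟩
  · apply strictAnti_nat_of_succ_lt
    intro n
    have := hhalf n
    have := (Q n).2
    linarith
  · apply squeeze_zero (fun n => (Q n).2.le) hgeo
    have h1 : Tendsto (fun n : ℕ => ((1 : ℝ) / 2) ^ n) atTop (𝓝 0) :=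
      tendsto_pow_atTop_nhds_zero_of_lt_one (by norm_num) (by norm_num)
    simpa using h1.const_mul (R0.1 : ℝ)
  · intro z hz
    rw [mem_closedBall, dist_eq_norm] at hz
    rw [mem_ball_zero_iff]
    have h1 : ‖z‖ ≤ ‖z - e‖ + ‖(e : ℂ)‖ := by
      have := norm_add_le (z - e) (e : ℂ)
      rwa [sub_add_cancel] at this
    rw [Complex.norm_real, Real.norm_eq_abs] at h1
    have h2 : ((Q 0).1 : ℝ) = (1 - |e|) / 2 := rfl
    have hz2 : ‖z - e‖ ≤ (1 - |e|) / 2 := hz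
    linarith
  · intro i
    exact hst (Q i)

end Pool.Agent.Helper87.Big
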